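import Pool.Agent.Helper57.QZ.Stmts

/-!
# Row DT2: `Wy` against its linear part
-/

set_option autoImplicit false

namespace Pool.Agent.Helper57.QZ

open MeasureTheory Set Filter Topology

/-- one prime -/
theorem dt2_term (ε : ℝ) (hε : 0 < ε) (p : ℕ) (hp : 2 ≤ p) (σ : ℝ) (hσ : 1 / 2 + ε ≤ σ) (φ : ℝ) :
    ‖-((Real.log p : ℂ) * (Complex.exp (-((φ : ℂ) * Complex.I)) * (aa σ p : ℂ)) /
      (1 - Complex.exp (-((φ : ℂ) * Complex.I)) * (aa σ p : ℂ))) +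
      ((aa σ p * Real.log p : ℝ) : ℂ) * Complex.exp (-((φ : ℂ) * Complex.I))‖ ≤
      (4 / ε) * (p : ℝ) ^ (-(1 + ε)) := by
  have hp1 : (1 : ℝ) ≤ p := by exact_mod_cast (by omega : 1 ≤ p)
  have hp2 : (2 : ℝ) ≤ p := by exact_mod_cast hp
  have hp0 : (0 : ℝ) < p := by linarith
  set X : ℂ := Complex.exp (-((φ : ℂ) * Complex.I)) with hX
  set a : ℝ := aa σ p with ha
  have hXn : ‖X‖ = 1 := by
    rw [hX, Complex.norm_exp]
    simp
  have ha0 : 0 < a := by rw [ha]; unfold aa; positivity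
  have ha1 : a ≤ 3 / 4 := by
    rw [ha]
    unfold aa
    have h1 : (p : ℝ) ^ (-σ) ≤ (p : ℝ) ^ (-(1 / 2) : ℝ) :=
      Real.rpow_le_rpow_of_exponent_le hp1 (by linarith)
    have h2 : (p : ℝ) ^ (-(1 / 2) : ℝ) ≤ (2 : ℝ) ^ (-(1 / 2) : ℝ) :=
      Real.rpow_le_rpow_of_nonpos (by norm_num) hp2 (by norm_num)
    have h3 : (2 : ℝ) ^ (-(1 / 2) : ℝ) ≤ 3 / 4 := by
      rw [Real.rpow_neg (by norm_num), ← Real.sqrt_eq_rpow]
      rw [inv_le_comm₀ (by positivity) (by norm_num)]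
      apply Real.le_sqrt_of_sq_le
      norm_num
    linarith
  have hXa : ‖X * (a : ℂ)‖ = a := by
    rw [norm_mul, hXn, one_mul, Complex.norm_real, Real.norm_of_nonneg ha0.le]
  have hden : 1 / 4 ≤ ‖1 - X * (a : ℂ)‖ := by
    have := norm_sub_norm_le (1 : ℂ) (X * (a : ℂ))
    rw [norm_one, hXa] at this
    linarith
  have hne : (1 - X * (a : ℂ)) ≠ 0 := by
    intro h
    rw [h, norm_zero] at hden
    linarith
  have hlog : 0 ≤ Real.log p := Real.log_nonneg hp1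
  have heq : -((Real.log p : ℂ) * (X * (a : ℂ)) / (1 - X * (a : ℂ))) +
      ((a * Real.log p : ℝ) : ℂ) * X =
      -((Real.log p : ℂ) * (X * (a : ℂ)) ^ 2 / (1 - X * (a : ℂ))) := by
    field_simp
    push_cast
    ring
  rw [heq, norm_neg, norm_div, norm_mul, norm_pow, hXa, Complex.norm_real,
    Real.norm_of_nonneg hlog]
  have h1 : Real.log p * a ^ 2 / ‖1 - X * (a : ℂ)‖ ≤ 4 * (Real.log p * a ^ 2) := by
    rw [div_le_iff₀ (by linarith)]
    have : 0 ≤ Real.log p * a ^ 2 := by positivity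
    nlinarith
  refine h1.trans ?_
  have h2 : a ^ 2 ≤ (p : ℝ) ^ (-(1 + 2 * ε)) := by
    rw [ha]
    unfold aa
    rw [← Real.rpow_natCast, ← Real.rpow_mul hp0.le]
    apply Real.rpow_le_rpow_of_exponent_le hp1
    push_cast
    linarith
  have h3 : Real.log p ≤ (p : ℝ) ^ ε / ε := Real.log_le_rpow_div hp0.le hε
  calc 4 * (Real.log p * a ^ 2) ≤ 4 * ((p : ℝ) ^ ε / ε * (p : ℝ) ^ (-(1 + 2 * ε))) := by
        gcongr
    _ = (4 / ε) * ((p : ℝ) ^ ε * (p : ℝ) ^ (-(1 + 2 * ε))) := by ring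
    _ = (4 / ε) * (p : ℝ) ^ (-(1 + ε)) := by
        rw [← Real.rpow_add hp0]
        congr 2
        ring

theorem st_DT2 : ST_DT2 := by
  intro ε hε
  have hs : Summable (fun n : ℕ => (4 / ε) * (n : ℝ) ^ (-(1 + ε))) :=
    (Real.summable_nat_rpow.mpr (by linarith)).mul_left _
  refine ⟨∑' n : ℕ, (4 / ε) * (n : ℝ) ^ (-(1 + ε)), fun y σ φ hσ => ?_⟩
  have h0 : Wy y σ φ + Vy y σ φ = ∑ p : Pr y,
      (-((Real.log (p : ℕ) : ℂ) * (Complex.exp (-((φ p : ℂ) * Complex.I)) * (aa σ p : ℂ)) /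
      (1 - Complex.exp (-((φ p : ℂ) * Complex.I)) * (aa σ p : ℂ))) +
      ((aa σ p * Real.log (p : ℕ) : ℝ) : ℂ) * Complex.exp (-((φ p : ℂ) * Complex.I))) := by
    unfold Wy Vy
    rw [Finset.sum_add_distrib, Finset.sum_neg_distrib]
  rw [h0]
  have h1 : ∀ p : Pr y, ‖(-((Real.log (p : ℕ) : ℂ) *
      (Complex.exp (-((φ p : ℂ) * Complex.I)) * (aa σ p : ℂ)) /
      (1 - Complex.exp (-((φ p : ℂ) * Complex.I)) * (aa σ p : ℂ))) +
      ((aa σ p * Real.log (p : ℕ) : ℝ) : ℂ) * Complex.exp (-((φ p : ℂ) * Complex.I)))‖ ≤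
      (4 / ε) * ((p : ℕ) : ℝ) ^ (-(1 + ε)) := fun p =>
    dt2_term ε hε p (Nat.prime_of_mem_primesBelow p.2).two_le σ hσ (φ p)
  refine (norm_sum_le _ _).trans ((Finset.sum_le_sum fun p _ => h1 p).trans ?_)
  rw [Finset.sum_coe_sort (Nat.primesBelow (y + 1))
    (fun n : ℕ => (4 / ε) * (n : ℝ) ^ (-(1 + ε)))]
  exact hs.sum_le_tsum _ (fun n _ => by positivity)

end Pool.Agent.Helper57.QZ
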